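import Pool.Agent.H21.L.R_seed8.W515.Cheb.Lim

/-! CH-MEAN: the mean value of an even Dirichlet character over the degree one primes of a
number field. -/

set_option autoImplicit false

open Complex Filter Topology NumberField IsDedekindDomain Pool.Agent.H921R2.TatePole H332.PIT Finset

namespace Pool.Agent.W515.Cheb

section

variable {K : Type} [Field K] [NumberField K] {q : ℕ} [NeZero q] {χ : DirichletCharacter ℂ q}

/-- the mean value with logarithmic weights, over primes -/
lemma mean_log {c : ℂ} (h : Tendsto (fun N : ℕ => (∑ k ∈ Icc 1 N, (LamK K k : ℂ) * χ k) / (N : ℂ))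
      atTop (𝓝 c)) :
    Tendsto (fun N : ℕ => (∑ p ∈ (range (N + 1)).filter Nat.Prime,
      ((Nat.card (𝓞 K →+* ZMod p) : ℝ) * Real.log p : ℝ) * χ p) / (N : ℂ)) atTop (𝓝 c) := by
  have h2 : Tendsto (fun N : ℕ => (Module.finrank ℚ K : ℝ) ^ 2 *
      (Chebyshev.psi N / N - Chebyshev.theta N / N)) atTop (𝓝 0) := by
    have a := Pool.Agent.Helper923.PNT.psi_div_tendsto.comp (tendsto_natCast_atTop_atTop (R := ℝ))
    have b := Pool.Agent.Helper923.PNT.theta_div_tendsto.comp (tendsto_natCast_atTop_atTop (R := ℝ))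
    have := (a.sub b).const_mul ((Module.finrank ℚ K : ℝ) ^ 2)
    simpa [Function.comp_def] using this
  have h3 : Tendsto (fun N : ℕ => (∑ k ∈ Icc 1 N, (LamK K k : ℂ) * χ k) / (N : ℂ) -
      (∑ p ∈ (range (N + 1)).filter Nat.Prime,
      ((Nat.card (𝓞 K →+* ZMod p) : ℝ) * Real.log p : ℝ) * χ p) / (N : ℂ)) atTop (𝓝 0) := by
    refine squeeze_zero_norm (fun N => ?_) h2
    have e1 : (∑ p ∈ (range (N + 1)).filter Nat.Prime,
        (((Nat.card (𝓞 K →+* ZMod p) : ℝ) * Real.log p : ℝ) : ℂ) * χ p) =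
        ∑ k ∈ (Icc 1 N).filter Nat.Prime, (LamK K k : ℂ) * χ k := by
      rw [Icc_eq]
      refine sum_congr rfl fun p hp => ?_
      rw [LamK_prime' (mem_filter.mp hp).2]
    have e2 : ∑ k ∈ Icc 1 N, (LamK K k : ℂ) * χ k -
        ∑ k ∈ (Icc 1 N).filter Nat.Prime, (LamK K k : ℂ) * χ k =
        ∑ k ∈ (Icc 1 N).filter (fun k => ¬ Nat.Prime k), (LamK K k : ℂ) * χ k := by
      rw [← sum_filter_add_sum_filter_not (Icc 1 N) Nat.Prime]
      ring
    have e3 : ∑ k ∈ Icc 1 N, LamK K k - TT K N =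
        ∑ k ∈ (Icc 1 N).filter (fun k => ¬ Nat.Prime k), LamK K k := by
      have h1 : TT K N = ∑ k ∈ (Icc 1 N).filter Nat.Prime, LamK K k := by
        unfold TT
        rw [Icc_eq]
        refine sum_congr rfl fun p hp => ?_
        rw [LamK_prime' (mem_filter.mp hp).2]
      rw [h1, ← sum_filter_add_sum_filter_not (Icc 1 N) Nat.Prime]
      ring
    rw [← sub_div, e1, e2, norm_div, ← sub_div, ← mul_div_assoc]
    have e4 : ‖(N : ℂ)‖ = N := by simp
    rw [e4]
    refine div_le_div_of_nonneg_right ?_ (Nat.cast_nonneg _)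
    refine le_trans ?_ (TT_le (K := K) N).2
    rw [e3]
    refine (norm_sum_le _ _).trans (sum_le_sum fun k _ => ?_)
    rw [norm_mul, Complex.norm_real, Real.norm_of_nonneg (LamK_nonneg k)]
    exact mul_le_of_le_one_right (LamK_nonneg k) (chi_norm_le k)
  have h4 := h.sub h3
  rw [sub_zero] at h4
  exact h4.congr fun N => by ring

/-- the mean value over primes -/
lemma mean_pi {c : ℂ} (h : Tendsto (fun N : ℕ => (∑ k ∈ Icc 1 N, (LamK K k : ℂ) * χ k) / (N : ℂ))
      atTop (𝓝 c)) :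
    Tendsto (fun N : ℕ => (∑ p ∈ (range (N + 1)).filter Nat.Prime,
      χ p * (Nat.card (𝓞 K →+* ZMod p) : ℂ)) / (Nat.primeCounting N : ℂ)) atTop (𝓝 c) := by
  set A : ℕ → ℂ := fun N => ∑ p ∈ (range (N + 1)).filter Nat.Prime,
      χ p * (Nat.card (𝓞 K →+* ZMod p) : ℂ) with hA
  set T : ℕ → ℂ := fun N => ∑ p ∈ (range (N + 1)).filter Nat.Prime,
      ((Nat.card (𝓞 K →+* ZMod p) : ℝ) * Real.log p : ℝ) * χ p with hTd
  set d : ℝ := (Module.finrank ℚ K : ℝ) with hd
  have hpi : Tendsto (fun N : ℕ => (Nat.primeCounting N : ℝ) * Real.log N / N) atTop (𝓝 1) := by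
    have := Pool.Agent.Helper923.PNT.pi_tendsto.comp (tendsto_natCast_atTop_atTop (R := ℝ))
    refine this.congr fun N => ?_
    simp only [Function.comp, Nat.floor_natCast]
  have hth : Tendsto (fun N : ℕ => Chebyshev.theta N / N) atTop (𝓝 1) :=
    Pool.Agent.Helper923.PNT.theta_div_tendsto.comp (tendsto_natCast_atTop_atTop (R := ℝ))
  have hdiff : ∀ N : ℕ, ‖A N * ((Real.log N : ℝ) : ℂ) - T N‖ ≤
      d * ((Nat.primeCounting N : ℝ) * Real.log N - Chebyshev.theta N) := by
    intro N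
    have e1 : A N * ((Real.log N : ℝ) : ℂ) - T N = ∑ p ∈ (range (N + 1)).filter Nat.Prime,
        (((Nat.card (𝓞 K →+* ZMod p) : ℝ) * (Real.log N - Real.log p) : ℝ) : ℂ) * χ p := by
      rw [hA, hTd]
      simp only
      rw [sum_mul, ← sum_sub_distrib]
      exact sum_congr rfl fun p _ => by push_cast; ring
    have e2 : (Nat.primeCounting N : ℝ) * Real.log N - Chebyshev.theta N =
        ∑ p ∈ (range (N + 1)).filter Nat.Prime, (Real.log N - Real.log p) := by
      rw [theta_eq, sum_sub_distrib, sum_const, nsmul_eq_mul]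
      congr 3
      unfold Nat.primeCounting Nat.primeCounting'
      rw [Nat.count_eq_card_filter_range]
    have hlog : ∀ p ∈ (range (N + 1)).filter Nat.Prime, 0 ≤ Real.log N - Real.log p := by
      intro p hp
      rw [mem_filter, mem_range] at hp
      have h1 : (0 : ℝ) < p := by exact_mod_cast hp.2.pos
      have h2 : (p : ℝ) ≤ N := by exact_mod_cast Nat.lt_succ_iff.mp hp.1
      have := Real.log_le_log h1 h2
      linarith
    rw [e1, e2, mul_sum]
    refine (norm_sum_le _ _).trans (sum_le_sum fun p hp => ?_)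
    have h1 : 0 ≤ (Nat.card (𝓞 K →+* ZMod p) : ℝ) * (Real.log N - Real.log p) :=
      mul_nonneg (Nat.cast_nonneg _) (hlog p hp)
    rw [norm_mul, Complex.norm_real, Real.norm_of_nonneg h1]
    refine (mul_le_of_le_one_right h1 (chi_norm_le p)).trans ?_
    exact mul_le_mul_of_nonneg_right (hc_cast_le (mem_filter.mp hp).2) (hlog p hp)
  have h0 : Tendsto (fun N : ℕ => d * ((Nat.primeCounting N : ℝ) * Real.log N / N -
      Chebyshev.theta N / N)) atTop (𝓝 0) := by
    have := (hpi.sub hth).const_mul d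
    simpa using this
  have h1 : Tendsto (fun N : ℕ => A N * ((Real.log N : ℝ) : ℂ) / N - T N / N) atTop (𝓝 0) := by
    refine squeeze_zero_norm (fun N => ?_) h0
    rw [← sub_div, norm_div, ← sub_div, ← mul_div_assoc]
    have e4 : ‖(N : ℂ)‖ = N := by simp
    rw [e4]
    exact div_le_div_of_nonneg_right (hdiff N) (Nat.cast_nonneg _)
  have h2 : Tendsto (fun N : ℕ => A N * ((Real.log N : ℝ) : ℂ) / N) atTop (𝓝 c) := by
    have := h1.add (mean_log h)
    rw [zero_add] at this
    exact this.congr fun N => by ring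
  have hpi' : Tendsto (fun N : ℕ => (((Nat.primeCounting N : ℝ) * Real.log N / N : ℝ) : ℂ)) atTop
      (𝓝 ((1 : ℝ) : ℂ)) := (Complex.continuous_ofReal.tendsto _).comp hpi
  have h3 := h2.div hpi' (by simp)
  rw [ofReal_one, div_one] at h3
  refine h3.congr' ?_
  filter_upwards [eventually_ge_atTop 2] with N hN
  have hl : ((Real.log N : ℝ) : ℂ) ≠ 0 := by
    have : 0 < Real.log N := Real.log_pos (by exact_mod_cast hN)
    exact_mod_cast this.ne'
  have hN0 : (N : ℂ) ≠ 0 := by
    have : N ≠ 0 := by omega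
    exact_mod_cast this
  have hp : (Nat.primeCounting N : ℂ) ≠ 0 := by
    have : Nat.primeCounting N ≠ 0 := by
      rw [Ne, Nat.primeCounting_eq_zero_iff]
      omega
    exact_mod_cast this
  simp only [Pi.div_apply]
  push_cast
  have hl' : Complex.log (N : ℂ) ≠ 0 := by
    rw [← Complex.natCast_log]
    exact hl
  field_simp
  rfl

/-- the values different from `1` -/
lemma exists_c0 (χ : DirichletCharacter ℂ q) : ∃ c0 : ℝ, c0 < 1 ∧ ∀ a : ZMod q, χ a ≠ 1 →
    (χ a).re ≤ c0 := by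
  classical
  have hlt : ∀ a : ZMod q, χ a ≠ 1 → (χ a).re < 1 := by
    intro a ha
    have h1 : ‖χ a‖ ≤ 1 := χ.norm_le_one _
    have h2 := Complex.re_le_norm (χ a)
    rcases (h2.trans h1).lt_or_eq with h | h
    · exact h
    · exfalso
      apply ha
      have h3 := Complex.sq_norm (χ a)
      rw [Complex.normSq_apply] at h3
      have h4 : ‖χ a‖ ^ 2 ≤ 1 := pow_le_one₀ (norm_nonneg _) h1
      have h5 : (χ a).im = 0 := by
        rw [h] at h3
        nlinarith
      apply Complex.ext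
      · simpa using h
      · simpa using h5
  by_cases hne : (univ.filter fun a : ZMod q => χ a ≠ 1).Nonempty
  · obtain ⟨b, hb, hmax⟩ := exists_max_image _ (fun a => (χ a).re) hne
    refine ⟨(χ b).re, hlt b (mem_filter.mp hb).2, fun a ha => hmax a ?_⟩
    exact mem_filter.mpr ⟨mem_univ _, ha⟩
  · refine ⟨0, by norm_num, fun a ha => absurd ?_ hne⟩
    exact ⟨a, mem_filter.mpr ⟨mem_univ _, ha⟩⟩

end

theorem main : Pool.Agent.W401.Cheb.TaskCont → Pool.Agent.W401.Cheb.TaskMean := by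
  intro hT K _ _ q _ χ hχ δ hδ0 hδ1 hδ
  classical
  obtain ⟨m, hm⟩ := mean_Lam (K := K) hT hχ
  have hc := mean_pi hm
  obtain ⟨c0, hc0, hc0'⟩ := exists_c0 χ
  have hW := Pool.Agent.H484R2.pit K
  have hre := (Complex.continuous_re.tendsto _).comp hc
  have e0 : (1 - (m : ℂ)).re = 1 - (m : ℝ) := by simp
  rw [e0] at hre
  set W : ℕ → ℝ := fun N => ∑ p ∈ Pool.Agent.W401.Cheb.pr N, (Nat.card (𝓞 K →+* ZMod p) : ℝ) with hWd
  set W1 : ℕ → ℝ := fun N => ∑ p ∈ Pool.Agent.W401.Cheb.pr N,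
    if χ p = 1 then (Nat.card (𝓞 K →+* ZMod p) : ℝ) else 0 with hW1d
  have hδ' : Tendsto (fun N : ℕ => W1 N / (Nat.primeCounting N : ℝ)) atTop (𝓝 δ) := by
    refine hδ.congr fun N => ?_
    rw [hW1d]
  have hW' : Tendsto (fun N : ℕ => W N / (Nat.primeCounting N : ℝ)) atTop (𝓝 1) := hW
  set R : ℕ → ℝ := fun N => ∑ p ∈ Pool.Agent.W401.Cheb.pr N,
    (χ p).re * (Nat.card (𝓞 K →+* ZMod p) : ℝ) with hRd
  have hR : Tendsto (fun N : ℕ => R N / (Nat.primeCounting N : ℝ)) atTop (𝓝 (1 - (m : ℝ))) := by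
    refine hre.congr fun N => ?_
    simp only [Function.comp]
    rw [← Complex.ofReal_natCast, Complex.div_ofReal_re]
    congr 1
    rw [Complex.re_sum, hRd]
    refine sum_congr rfl fun p _ => ?_
    rw [← Complex.ofReal_natCast, Complex.re_mul_ofReal]
  have hlow : ∀ N, 2 * W1 N - W N ≤ R N := by
    intro N
    rw [hW1d, hWd, hRd]
    simp only
    rw [mul_sum, ← sum_sub_distrib]
    refine sum_le_sum fun p _ => ?_
    have hn : (0 : ℝ) ≤ (Nat.card (𝓞 K →+* ZMod p) : ℝ) := Nat.cast_nonneg _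
    split_ifs with h
    · rw [h, Complex.one_re]
      linarith
    · have h2 := (abs_le.mp ((Complex.abs_re_le_norm (χ p)).trans (χ.norm_le_one _))).1
      nlinarith
  have hup : ∀ N, R N ≤ (1 - c0) * W1 N + c0 * W N := by
    intro N
    rw [hW1d, hWd, hRd]
    simp only
    rw [mul_sum, mul_sum, ← sum_add_distrib]
    refine sum_le_sum fun p _ => ?_
    have hn : (0 : ℝ) ≤ (Nat.card (𝓞 K →+* ZMod p) : ℝ) := Nat.cast_nonneg _
    split_ifs with h
    · rw [h, Complex.one_re]
      linarith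
    · have h2 := hc0' p h
      nlinarith
  have hl : 2 * δ - 1 ≤ 1 - (m : ℝ) := by
    refine le_of_tendsto_of_tendsto' ((hδ'.const_mul 2).sub hW') hR fun N => ?_
    rw [← mul_div_assoc, ← sub_div]
    exact div_le_div_of_nonneg_right (hlow N) (Nat.cast_nonneg _)
  have hu : 1 - (m : ℝ) ≤ (1 - c0) * δ + c0 * 1 := by
    refine le_of_tendsto_of_tendsto' hR ((hδ'.const_mul (1 - c0)).add (hW'.const_mul c0)) fun N => ?_
    rw [← mul_div_assoc, ← mul_div_assoc, ← add_div]
    exact div_le_div_of_nonneg_right (hup N) (Nat.cast_nonneg _)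
  have hm2 : (m : ℝ) < 2 := by linarith
  have hm0 : (0 : ℝ) < m := by nlinarith
  have hm1 : m = 1 := by
    have h1 : m < 2 := by exact_mod_cast hm2
    have h2 : 0 < m := by exact_mod_cast hm0
    omega
  have e1 : (1 : ℂ) - (m : ℂ) = 0 := by rw [hm1]; simp
  rw [e1] at hc
  exact hc

end Pool.Agent.W515.Cheb
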