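import Pool.Agent.H21.L.R_seed8.H332R2.PIT.Main

set_option autoImplicit false

open Complex Filter Topology

namespace Pool.Agent.W515.Cheb

/-- a function `Z` with logarithmic derivative `-L` and a continuation across `Re s = 1` -/
structure Dat (Z L : ℂ → ℂ) : Prop where
  anZ : ∀ s : ℂ, 1 < s.re → AnalyticAt ℂ Z s
  anL : ∀ s : ℂ, 1 < s.re → AnalyticAt ℂ L s
  der : ∀ s : ℂ, 1 < s.re → deriv Z s = -(L s * Z s)
  nz : ∃ x : ℂ, 1 < x.re ∧ Z x ≠ 0
  cont : ∀ t : ℝ, ∃ g : ℂ → ℂ, AnalyticAt ℂ g (1 + t * I) ∧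
    ∀ᶠ z in 𝓝 ((1 : ℂ) + t * I), 1 < z.re → g z = (z - 1) * Z z

variable {Z L : ℂ → ℂ}

open H332.PIT (isOpen_re path_tendsto path_tendsto_ne)

theorem Dat.ne_zero (D : Dat Z L) {s : ℂ} (hs : 1 < s.re) : Z s ≠ 0 := by
  intro h0
  have hev : ¬ ∀ᶠ z in 𝓝 s, Z z = 0 := by
    intro h
    have hpre : IsPreconnected {s : ℂ | 1 < s.re} := (convex_halfSpace_re_gt 1).isPreconnected
    have h1 := AnalyticOnNhd.eqOn_zero_of_preconnected_of_eventuallyEq_zero
      (f := Z) (U := {s : ℂ | 1 < s.re}) (fun z hz => D.anZ z hz) hpre hs h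
    obtain ⟨x, hx, hx0⟩ := D.nz
    exact hx0 (h1 hx)
  obtain ⟨m, hm, hm0, hmn⟩ := H332.PIT.logderiv_asymp (D.anZ s hs) hev
  have h1 : ∀ᶠ z in 𝓝[≠] s, -((z - s) * L z) = (z - s) * (deriv Z z / Z z) := by
    filter_upwards [hmn, (isOpen_re.mem_nhds hs |> mem_nhdsWithin_of_mem_nhds)] with z hz hz1
    rw [D.der z hz1]
    field_simp
  have h2 : Tendsto (fun z => -((z - s) * L z)) (𝓝[≠] s) (𝓝 0) := by
    have h3 : Tendsto (fun z => -((z - s) * L z)) (𝓝 s) (𝓝 (-((s - s) * L s))) := by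
      refine Tendsto.neg (Tendsto.mul ?_ (D.anL s hs).continuousAt)
      exact (continuous_id.sub continuous_const).continuousAt
    rw [sub_self, zero_mul, neg_zero] at h3
    exact h3.mono_left nhdsWithin_le_nhds
  have h3 := tendsto_nhds_unique (h2.congr' h1) hm
  have h4 : m = 0 := by exact_mod_cast h3.symm
  exact (hm0.mp h0) h4

lemma ne_one_of_re {z : ℂ} (h : 1 < z.re) : z - 1 ≠ 0 := by
  intro h1
  have : z = 1 := sub_eq_zero.mp h1
  rw [this] at h
  simp at h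

theorem Dat.logderiv (D : Dat Z L) {t : ℝ} {g : ℂ → ℂ}
    (hgz : ∀ᶠ z in 𝓝 ((1 : ℂ) + t * I), 1 < z.re → g z = (z - 1) * Z z) :
    ∀ᶠ z in 𝓝 ((1 : ℂ) + t * I), 1 < z.re → deriv g z / g z = 1 / (z - 1) - L z := by
  filter_upwards [hgz.eventually_nhds] with z hz hre
  have h1 : g =ᶠ[𝓝 z] fun w => (w - 1) * Z w := by
    filter_upwards [hz, isOpen_re.mem_nhds hre] with w hw hw1
    exact hw hw1
  have h2 : HasDerivAt (fun w => (w - 1) * Z w) (1 * Z z + (z - 1) * deriv Z z) z :=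
    ((hasDerivAt_id z).sub_const 1).mul (D.anZ z hre).differentiableAt.hasDerivAt
  have hz0 := D.ne_zero hre
  have hz1 := ne_one_of_re hre
  rw [h1.deriv_eq, h2.deriv, h1.eq_of_nhds, D.der z hre]
  field_simp
  ring

theorem Dat.not_zero (D : Dat Z L) {t : ℝ} {g : ℂ → ℂ}
    (hgz : ∀ᶠ z in 𝓝 ((1 : ℂ) + t * I), 1 < z.re → g z = (z - 1) * Z z) :
    ¬ ∀ᶠ z in 𝓝 ((1 : ℂ) + t * I), g z = 0 := by
  intro h
  have h1 := (path_tendsto t).eventually (hgz.and h)
  obtain ⟨σ, ⟨h2, h3⟩, hσ⟩ := (h1.and self_mem_nhdsWithin).exists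
  have hre : 1 < ((σ : ℂ) + t * I).re := by simpa using hσ
  rw [h2 hre] at h3
  exact mul_ne_zero (ne_one_of_re hre) (D.ne_zero hre) h3

/-- local expansion of `L` at `1 + i t` -/
theorem Dat.local (D : Dat Z L) (t : ℝ) : ∃ (m : ℕ) (k : ℂ → ℂ), ContinuousAt k (1 + t * I) ∧
    ∀ᶠ z in 𝓝 ((1 : ℂ) + t * I), 1 < z.re →
      L z = 1 / (z - 1) - m / (z - (1 + t * I)) + k z := by
  obtain ⟨g, hg, hgz⟩ := D.cont t
  obtain ⟨m, h, hh, hh0, hgh⟩ :=
    (hg.exists_eventuallyEq_pow_smul_nonzero_iff).mpr (D.not_zero hgz)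
  have e1 : ∀ᶠ z in 𝓝 ((1 : ℂ) + t * I), ∀ᶠ w in 𝓝 z, g w = (w - (1 + t * I)) ^ m • h w :=
    hgh.eventually_nhds
  have e2 : ∀ᶠ z in 𝓝 ((1 : ℂ) + t * I), h z ≠ 0 := hh.continuousAt.eventually_ne hh0
  have e3 : ∀ᶠ z in 𝓝 ((1 : ℂ) + t * I), DifferentiableAt ℂ h z :=
    hh.eventually_analyticAt.mono fun z hz => hz.differentiableAt
  refine ⟨m, fun z => -(deriv h z / h z), (hh.deriv.continuousAt.div hh.continuousAt hh0).neg, ?_⟩
  filter_upwards [e1, e2, e3, D.logderiv hgz] with z h1 h2 h3 h6 hre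
  set z0 : ℂ := 1 + t * I with hz0d
  have hz0 : z - z0 ≠ 0 := by
    intro h7
    have h8 : z = z0 := sub_eq_zero.mp h7
    rw [h8, hz0d] at hre
    simp at hre
  have hd : deriv g z = m * (z - z0) ^ (m - 1) * h z + (z - z0) ^ m * deriv h z := by
    rw [Filter.EventuallyEq.deriv_eq (f := fun w => (w - z0) ^ m * h w) h1]
    have h4 : HasDerivAt (fun w : ℂ => (w - z0) ^ m) (m * (z - z0) ^ (m - 1)) z := by
      have h5 := ((hasDerivAt_id z).sub_const z0).pow m
      simp only [id, mul_one] at h5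
      exact h5
    exact (h4.mul h3.hasDerivAt).deriv
  have hm : (m : ℂ) * (z - z0) ^ (m - 1) * (z - z0) = m * (z - z0) ^ m := by
    rcases m with _ | m
    · simp
    · rw [Nat.add_sub_cancel, mul_assoc, ← pow_succ]
  have hgz' : g z = (z - z0) ^ m * h z := by
    have := h1.self_of_nhds
    simpa using this
  have hpow : (z - z0) ^ m ≠ 0 := pow_ne_zero _ hz0
  have h7 : deriv g z / g z = m / (z - z0) + deriv h z / h z := by
    rw [hgz', hd]
    field_simp
    linear_combination (h z) * hm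
  have h8 := h6 hre
  rw [h7] at h8
  linear_combination h8

theorem limit_of_local {m : ℕ} {k : ℂ → ℂ} {t : ℝ} (hk : ContinuousAt k (1 + t * I))
    (h : ∀ᶠ z in 𝓝 ((1 : ℂ) + t * I), 1 < z.re →
      L z = 1 / (z - 1) - m / (z - (1 + t * I)) + k z) :
    Tendsto (fun σ : ℝ => ((σ : ℂ) - 1) * L (σ + t * I)) (𝓝[>] 1)
      (𝓝 ((if t = 0 then 1 else 0) - (m : ℂ))) := by
  have h2 : Tendsto (fun σ : ℝ => ((σ : ℂ) - 1) / ((σ : ℂ) + t * I - 1)) (𝓝[>] 1)
      (𝓝 (if t = 0 then 1 else 0)) := by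
    split_ifs with ht
    · refine Tendsto.congr' ?_ tendsto_const_nhds
      filter_upwards [self_mem_nhdsWithin] with σ hσ
      have h3 : (σ : ℂ) - 1 ≠ 0 := by
        intro h
        have : (σ : ℂ) = 1 := sub_eq_zero.mp h
        have h4 : σ = 1 := by exact_mod_cast this
        have h5 : (1 : ℝ) < σ := hσ
        linarith
      rw [ht]
      simp only [ofReal_zero, zero_mul, add_zero]
      exact (div_self h3).symm
    · have h3 : Tendsto (fun σ : ℝ => ((σ : ℂ) - 1) / ((σ : ℂ) + t * I - 1)) (𝓝 1)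
          (𝓝 ((((1 : ℝ) : ℂ) - 1) / (((1 : ℝ) : ℂ) + t * I - 1))) := by
        have hc : ContinuousAt (fun σ : ℝ => ((σ : ℂ) - 1) / ((σ : ℂ) + t * I - 1)) 1 := by
          refine ContinuousAt.div (by fun_prop) (by fun_prop) ?_
          simp only [ofReal_one, add_sub_cancel_left]
          exact mul_ne_zero (by exact_mod_cast ht) I_ne_zero
        exact hc
      simp only [ofReal_one, sub_self, zero_div] at h3
      exact h3.mono_left nhdsWithin_le_nhds
  have h3 : Tendsto (fun σ : ℝ => ((σ : ℂ) - 1) * k (σ + t * I)) (𝓝[>] 1) (𝓝 0) := by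
    have h4 := hk.tendsto.comp (path_tendsto t)
    have h5 : Tendsto (fun σ : ℝ => ((σ : ℂ) - 1)) (𝓝[>] 1) (𝓝 0) := by
      have hc : Continuous fun σ : ℝ => ((σ : ℂ) - 1) := by fun_prop
      have := hc.tendsto 1
      simp only [ofReal_one, sub_self] at this
      exact this.mono_left nhdsWithin_le_nhds
    have := h5.mul h4
    rw [zero_mul] at this
    exact this
  have h4 : Tendsto (fun _ : ℝ => (m : ℂ)) (𝓝[>] 1) (𝓝 (m : ℂ)) := tendsto_const_nhds
  have h5 := (h2.sub h4).add h3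
  rw [add_zero] at h5
  refine h5.congr' ?_
  filter_upwards [(path_tendsto t).eventually h, self_mem_nhdsWithin] with σ hσ hσ1
  have hre : 1 < ((σ : ℂ) + t * I).re := by simpa using hσ1
  have hz1 := ne_one_of_re hre
  have e : (σ : ℂ) + t * I - (1 + t * I) = σ - 1 := by ring
  have hσ0 : (σ : ℂ) - 1 ≠ 0 := by
    intro h
    have : (σ : ℂ) = 1 := sub_eq_zero.mp h
    have h4 : σ = 1 := by exact_mod_cast this
    have h5 : (1 : ℝ) < σ := hσ1
    linarith
  rw [hσ hre, e]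
  field_simp

/-- boundary values, if there are no zeros at `1 + i t`, `t ≠ 0` -/
theorem Dat.boundary (D : Dat Z L) {m0 : ℕ}
    (h0 : Tendsto (fun σ : ℝ => ((σ : ℂ) - 1) * L (σ + (0 : ℝ) * I)) (𝓝[>] 1)
      (𝓝 (1 - (m0 : ℂ))))
    (h1 : ∀ t : ℝ, t ≠ 0 → Tendsto (fun σ : ℝ => ((σ : ℂ) - 1) * L (σ + t * I)) (𝓝[>] 1) (𝓝 0))
    {s : ℂ} (hs : 1 ≤ s.re) :
    ∃ y, Tendsto (fun s => L s - (1 - (m0 : ℂ)) / (s - 1)) (𝓝[{s : ℂ | 1 < s.re}] s) (𝓝 y) := by
  rcases hs.eq_or_lt with h | h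
  · have hs' : s = 1 + (s.im : ℝ) * I := by
      apply Complex.ext <;> simp [← h]
    obtain ⟨m, k, hk, hL⟩ := D.local s.im
    have hlim := limit_of_local hk hL
    rw [hs']
    by_cases ht : s.im = 0
    · rw [if_pos ht] at hlim
      rw [ht] at hlim hL hk ⊢
      have hm : (m : ℂ) = m0 := by
        have := tendsto_nhds_unique hlim h0
        linear_combination -this
      refine ⟨k (1 + (0 : ℝ) * I), ?_⟩
      refine (hk.tendsto.mono_left nhdsWithin_le_nhds).congr' ?_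
      filter_upwards [hL.filter_mono nhdsWithin_le_nhds, self_mem_nhdsWithin] with z hz hre
      rw [hz hre, hm]
      simp only [ofReal_zero, zero_mul, add_zero]
      ring
    · rw [if_neg ht] at hlim
      have hm : (m : ℂ) = 0 := by
        have := tendsto_nhds_unique hlim (h1 _ ht)
        linear_combination -this
      have hne : (1 : ℂ) + s.im * I - 1 ≠ 0 := by
        rw [add_sub_cancel_left]
        exact mul_ne_zero (by exact_mod_cast ht) I_ne_zero
      have hc : ContinuousAt (fun z : ℂ => k z + (m0 : ℂ) / (z - 1)) (1 + s.im * I) :=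
        hk.add (continuousAt_const.div (by fun_prop) hne)
      refine ⟨_, (hc.tendsto.mono_left nhdsWithin_le_nhds).congr' ?_⟩
      filter_upwards [hL.filter_mono nhdsWithin_le_nhds, self_mem_nhdsWithin] with z hz hre
      rw [hz hre, hm]
      ring
  · have h1 : ContinuousAt (fun s => L s - (1 - (m0 : ℂ)) / (s - 1)) s :=
      (D.anL s h).continuousAt.sub
        (continuousAt_const.div (continuous_id.sub continuous_const).continuousAt (ne_one_of_re h))
    exact ⟨_, h1.tendsto.mono_left nhdsWithin_le_nhds⟩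

end Pool.Agent.W515.Cheb
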