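import Pool.Agent.H21.L.R_seed8.W515.Cheb.Dat
import Pool.Agent.H21.L.R_seed8.W401.Cheb.Defs
import Pool.Agent.H21.L.R_seed8.H484R2.Pit

set_option autoImplicit false

open Complex Filter Topology NumberField IsDedekindDomain Pool.Agent.H921R2.TatePole H332.PIT

namespace Pool.Agent.W515.Cheb

section

variable (K : Type) [Field K] [NumberField K] {q : ℕ} [NeZero q] (χ : DirichletCharacter ℂ q)

/-- twisted coefficients of the zeta function -/
noncomputable def ac (n : ℕ) : ℂ := χ n * (aK K n : ℂ)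

/-- twisted von Mangoldt function -/
noncomputable def lc (n : ℕ) : ℂ := χ n * (LamK K n : ℂ)

noncomputable def ZX (s : ℂ) : ℂ := LSeries (ac K χ) s

noncomputable def LX (s : ℂ) : ℂ := LSeries (lc K χ) s

variable {K} {χ}

lemma chi_norm_le (n : ℕ) : ‖χ (n : ZMod q)‖ ≤ 1 := χ.norm_le_one _

lemma ac_summable {s : ℂ} (hs : 1 < s.re) : LSeriesSummable (ac K χ) s := by
  refine Summable.of_norm_bounded (g := fun n => ‖LSeries.term (fun n => (aK K n : ℂ)) s n‖)
    (aK_summable (K := K) hs).norm fun n => ?_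
  rcases eq_or_ne n 0 with rfl | hn
  · simp
  · rw [LSeries.term_of_ne_zero hn, LSeries.term_of_ne_zero hn, norm_div, norm_div]
    refine div_le_div_of_nonneg_right ?_ (norm_nonneg _)
    unfold ac
    rw [norm_mul]
    exact mul_le_of_le_one_left (norm_nonneg _) (chi_norm_le n)

lemma lc_summable {s : ℂ} (hs : 1 < s.re) : LSeriesSummable (lc K χ) s := by
  refine Summable.of_norm_bounded (g := fun n => ‖LSeries.term (fun n => (LamK K n : ℂ)) s n‖)
    (LamK_summable (K := K) hs).norm fun n => ?_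
  rcases eq_or_ne n 0 with rfl | hn
  · simp
  · rw [LSeries.term_of_ne_zero hn, LSeries.term_of_ne_zero hn, norm_div, norm_div]
    refine div_le_div_of_nonneg_right ?_ (norm_nonneg _)
    unfold lc
    rw [norm_mul]
    exact mul_le_of_le_one_left (norm_nonneg _) (chi_norm_le n)

lemma absc_ac : LSeries.abscissaOfAbsConv (ac K χ) ≤ 1 := by
  refine LSeries.abscissaOfAbsConv_le_of_forall_lt_LSeriesSummable (x := 1) fun y hy => ?_
  exact ac_summable (by simpa using hy)

lemma absc_lc : LSeries.abscissaOfAbsConv (lc K χ) ≤ 1 := by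
  refine LSeries.abscissaOfAbsConv_le_of_forall_lt_LSeriesSummable (x := 1) fun y hy => ?_
  exact lc_summable (by simpa using hy)

theorem deriv_ZX {s : ℂ} (hs : 1 < s.re) : deriv (ZX K χ) s = - (LX K χ s * ZX K χ s) := by
  have h1 : ZX K χ = LSeries (ac K χ) := rfl
  rw [h1, LSeries_deriv (one_lt_re absc_ac hs)]
  congr 1
  unfold LX
  rw [← LSeries_convolution' (lc_summable hs) (ac_summable hs)]
  refine LSeries_congr (fun {n} hn => ?_) s
  rw [LSeries.convolution_def]
  unfold LSeries.logMul ac lc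
  have h2 := conv_id (K := K) hn
  have h3 : Complex.log (n : ℂ) = ((Real.log n : ℝ) : ℂ) := (Complex.natCast_log).symm
  rw [h3, mul_left_comm, ← Complex.ofReal_mul, h2]
  push_cast
  rw [Finset.mul_sum]
  refine Finset.sum_congr rfl fun d hd => ?_
  have h4 : d.1 * d.2 = n := (Nat.mem_divisorsAntidiagonal.1 hd).1
  have h5 : χ (n : ZMod q) = χ (d.1 : ZMod q) * χ (d.2 : ZMod q) := by
    rw [← h4, Nat.cast_mul, map_mul]
  rw [h5]
  ring

lemma aK_one : aK K 1 = 1 := by
  unfold aK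
  have : Nat.card {I : Ideal (𝓞 K) // Ideal.absNorm I = 1} = 1 := by
    rw [Nat.card_eq_one_iff_unique]
    constructor
    · constructor
      rintro ⟨a, ha⟩ ⟨b, hb⟩
      rw [Ideal.absNorm_eq_one_iff] at ha hb
      exact Subtype.ext (ha.trans hb.symm)
    · exact ⟨⟨⊤, by simp⟩⟩
  rw [this]
  simp

lemma ZX_nz : ∃ x : ℂ, 1 < x.re ∧ ZX K χ x ≠ 0 := by
  have h1 : Tendsto (fun x : ℝ => LSeries (ac K χ) x) atTop (𝓝 (ac K χ 1)) := by
    refine LSeries.tendsto_atTop ?_
    exact lt_of_le_of_lt absc_ac (by exact_mod_cast EReal.coe_lt_top 1)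
  have h2 : ac K χ 1 = 1 := by
    unfold ac
    rw [aK_one]
    simp
  rw [h2] at h1
  have h3 : ∀ᶠ x : ℝ in atTop, LSeries (ac K χ) x ≠ 0 := h1.eventually_ne one_ne_zero
  obtain ⟨x, hx, hx1⟩ := (h3.and (eventually_gt_atTop 1)).exists
  exact ⟨x, by simpa using hx1, hx⟩

lemma ZX_analyticAt {s : ℂ} (hs : 1 < s.re) : AnalyticAt ℂ (ZX K χ) s := by
  have h : DifferentiableOn ℂ (ZX K χ) {s : ℂ | 1 < s.re} := fun z hz =>
    (LSeries_hasDerivAt (one_lt_re absc_ac hz)).differentiableAt.differentiableWithinAt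
  exact h.analyticAt (isOpen_re.mem_nhds hs)

lemma LX_analyticAt {s : ℂ} (hs : 1 < s.re) : AnalyticAt ℂ (LX K χ) s := by
  have h : DifferentiableOn ℂ (LX K χ) {s : ℂ | 1 < s.re} := fun z hz =>
    (LSeries_hasDerivAt (one_lt_re absc_lc hz)).differentiableAt.differentiableWithinAt
  exact h.analyticAt (isOpen_re.mem_nhds hs)

theorem dat (hT : Pool.Agent.W401.Cheb.TaskCont) (hχ : χ (-1) = 1) : Dat (ZX K χ) (LX K χ) where
  anZ _ hs := ZX_analyticAt hs
  anL _ hs := LX_analyticAt hs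
  der _ hs := deriv_ZX hs
  nz := ZX_nz
  cont t := by
    obtain ⟨g, hg, hgz⟩ := hT K q χ hχ t
    refine ⟨g, hg, hgz.mono fun z hz hre => ?_⟩
    rw [hz hre]
    congr 2

/-- a term of the L-series -/
lemma term_lc (n : ℕ) (σ t : ℝ) :
    LSeries.term (lc K χ) ((σ : ℂ) + t * I) n =
      ((if n = 0 then 0 else LamK K n * Real.exp (-(σ * Real.log n)) : ℝ) : ℂ) *
        (χ n * Complex.exp (((-(t * Real.log n) : ℝ) : ℂ) * I)) := by
  rcases eq_or_ne n 0 with rfl | hn
  · simp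
  · rw [LSeries.term_of_ne_zero hn, if_neg hn]
    have hn' : (n : ℂ) ≠ 0 := by exact_mod_cast hn
    unfold lc
    rw [div_eq_mul_inv, ← Complex.cpow_neg, Complex.cpow_def_of_ne_zero hn', ← Complex.natCast_log]
    have h1 : ((Real.log n : ℝ) : ℂ) * -((σ : ℂ) + t * I) =
        ((-(σ * Real.log n) : ℝ) : ℂ) + ((-(t * Real.log n) : ℝ) : ℂ) * I := by
      push_cast
      ring
    rw [h1, Complex.exp_add]
    push_cast
    ring

lemma key_ineq (w : ℂ) (hw : ‖w‖ ≤ 1) : 0 ≤ 3 + 4 * w.re + (w ^ 2).re := by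
  have h1 : w.re ^ 2 + w.im ^ 2 ≤ 1 := by
    have h2 := Complex.sq_norm w
    rw [Complex.normSq_apply] at h2
    have h3 : ‖w‖ ^ 2 ≤ 1 := pow_le_one₀ (norm_nonneg _) hw
    nlinarith
  have h2 : (w ^ 2).re = w.re ^ 2 - w.im ^ 2 := by
    rw [pow_two, Complex.mul_re]
    ring
  rw [h2]
  nlinarith [sq_nonneg (1 + w.re)]

/-- the 3-4-1 inequality -/
lemma three_four_one' {σ : ℝ} (hσ : 1 < σ) (t : ℝ) :
    0 ≤ 3 * (LL K (σ : ℂ)).re + 4 * (LX K χ ((σ : ℂ) + t * I)).re +
      (LX K (χ ^ 2) ((σ : ℂ) + (2 * t : ℝ) * I)).re := by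
  have h0 := LamK_summable (K := K) (s := (σ : ℂ) + (0 : ℝ) * I) (by simpa using hσ)
  have h1 := lc_summable (K := K) (χ := χ) (s := (σ : ℂ) + t * I) (by simpa using hσ)
  have h2 := lc_summable (K := K) (χ := χ ^ 2) (s := (σ : ℂ) + (2 * t : ℝ) * I) (by simpa using hσ)
  have g0 := Complex.reCLM.hasSum h0.hasSum
  have g1 := Complex.reCLM.hasSum h1.hasSum
  have g2 := Complex.reCLM.hasSum h2.hasSum
  have e0 : (σ : ℂ) = (σ : ℂ) + (0 : ℝ) * I := by simp
  have h3 := ((g0.mul_left 3).add (g1.mul_left 4)).add g2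
  have h4 := h3.nonneg (fun n => by
    simp only [Complex.reCLM_apply]
    rw [term_re, term_lc, term_lc, Complex.re_ofReal_mul, Complex.re_ofReal_mul]
    have h6 : (0 : ℝ) ≤ (if n = 0 then 0 else LamK K n * Real.exp (-(σ * Real.log n))) := by
      split_ifs
      · exact le_rfl
      · exact mul_nonneg (LamK_nonneg n) (Real.exp_pos _).le
    set w : ℂ := χ n * Complex.exp (((-(t * Real.log n) : ℝ) : ℂ) * I) with hw
    have hw2 : (χ ^ 2) (n : ZMod q) * Complex.exp (((-(2 * t * Real.log n) : ℝ) : ℂ) * I) = w ^ 2 := by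
      rw [hw, mul_pow, ← Complex.exp_nat_mul, MulChar.pow_apply' _ two_ne_zero]
      congr 2
      push_cast
      ring
    have hwn : ‖w‖ ≤ 1 := by
      rw [hw, norm_mul, Complex.norm_exp_ofReal_mul_I, mul_one]
      exact chi_norm_le n
    rw [hw2, zero_mul, Real.cos_zero, mul_one]
    have h7 := key_ineq w hwn
    nlinarith [mul_nonneg h6 h7])
  unfold LL LX LSeries
  rw [e0]
  simpa using h4

end

end Pool.Agent.W515.Cheb
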